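import Pool.Agent.Lib.MP_4ccb00_al.E.Defs

/-!
# MP_4ccb00_al, library part: definitions

Groups of order `p ^ n` with `d` generators are described by the normal subgroups `R` of index `p ^ n`
of the free group `FG d` which are contained in `Phi p ⊤` (so that `d` is the minimal number of
generators of `FG d ⧸ R`).
-/

set_option autoImplicit false

namespace Pool.Agent.Lib.MP4ccb00

open Subgroup

/-- The number of isomorphism classes of groups of order `N`. For `N = p ^ n` this is literally the
term which occurs in the frozen statement `S01403`. -/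
noncomputable def numGroups (N : ℕ) : ℕ :=
  Nat.card (Quot (fun g h : Group (Fin N) =>
    Nonempty (@MulEquiv (Fin N) (Fin N)
      (@Semigroup.toMul _ (@Monoid.toSemigroup _ (@DivInvMonoid.toMonoid _ (@Group.toDivInvMonoid _ g))))
      (@Semigroup.toMul _ (@Monoid.toSemigroup _ (@DivInvMonoid.toMonoid _ (@Group.toDivInvMonoid _ h)))))))

/-- `Phi p N = N ^ p [N, N]`: the subgroup generated by the commutators and the `p`-th powers of the
elements of `N`. For `N = ⊤` in a finite `p`-group this is the Frattini subgroup. -/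
abbrev Phi (p : ℕ) {G : Type} [Group G] (N : Subgroup G) : Subgroup G := E.PhiP p N

/-- `Psi p G = [Phi, G] Phi ^ p`, where `Phi = Phi p ⊤`. -/
def Psi (p : ℕ) (G : Type) [Group G] : Subgroup G :=
  ⁅Phi p (⊤ : Subgroup G), (⊤ : Subgroup G)⁆ ⊔ closure {x | ∃ h ∈ Phi p (⊤ : Subgroup G), x = h ^ p}

/-- The free group on `d` generators. -/
abbrev FG (d : ℕ) : Type := FreeGroup (Fin d)

/-- The marked groups of order `p ^ n` with minimal number of generators `d`
(this is `E.Marked p n (FG d)`). -/
def X (p d n : ℕ) : Set (Subgroup (FG d)) :=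
  {R | R.Normal ∧ R ≤ Phi p (⊤ : Subgroup (FG d)) ∧ R.index = p ^ n}

/-- The marked groups whose Frattini subgroup is central and elementary abelian. -/
def Good (p d n : ℕ) : Set (Subgroup (FG d)) := {R | R ∈ X p d n ∧ Psi p (FG d) ≤ R}

/-- The endomorphism of `FG d` which maps the generator `i` to `y i`. -/
def hm {d : ℕ} (y : Fin d → FG d) : FG d →* FG d := FreeGroup.lift y

/-- `Rel R R'`: there is an isomorphism `FG d ⧸ R → FG d ⧸ R'` (written with the endomorphism `hm y`
which induces it). -/
def Rel {d : ℕ} (R R' : Subgroup (FG d)) : Prop :=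
  ∃ y : Fin d → FG d, R = R'.comap (hm y) ∧ R' ⊔ (hm y).range = ⊤

/-- The number of classes of `Rel` in a set of subgroups of `FG d`. -/
noncomputable def ncl {d : ℕ} (C : Set (Subgroup (FG d))) : ℕ :=
  Nat.card (Quot (fun R R' : C => Rel R.1 R'.1))

/-- Exponent sums mod `p`: the projection of `FG d` on `(ZMod p) ^ d`. -/
def ab (p : ℕ) {d : ℕ} : FG d →* Multiplicative (Fin d → ZMod p) :=
  FreeGroup.lift (fun i => Multiplicative.ofAdd (Pi.single i 1))

/-- The matrix of the endomorphism `hm y` on `(ZMod p) ^ d`: row `i` is the vector of exponent sums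
of `y i`. -/
def mat (p : ℕ) {d : ℕ} (y : Fin d → FG d) : Matrix (Fin d) (Fin d) (ZMod p) :=
  fun i j => Multiplicative.toAdd (ab p (y i)) j

/-- A tuple with matrix `g`. -/
noncomputable def can (p : ℕ) {d : ℕ} (g : Matrix (Fin d) (Fin d) (ZMod p)) : Fin d → FG d :=
  fun i => (List.ofFn fun j : Fin d => FreeGroup.of j ^ (g i j).val).prod

/-- The group of invertible matrices. -/
abbrev GLp (p d : ℕ) : Type := GL (Fin d) (ZMod p)

/-- The image of `Aut (FG d ⧸ R)` in `GL_d`. -/
def ImA (p : ℕ) {d : ℕ} (R : Subgroup (FG d)) : Set (GLp p d) :=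
  {g | ∃ y : Fin d → FG d, mat p y = (g : Matrix (Fin d) (Fin d) (ZMod p)) ∧ R ≤ R.comap (hm y)}

/-- The number of `e`-dimensional subspaces of an `m`-dimensional vector space over `ZMod p`
(Gaussian binomial coefficient). -/
noncomputable def gb (p m e : ℕ) : ℕ :=
  Nat.card {W : Submodule (ZMod p) (Fin m → ZMod p) // Module.finrank (ZMod p) W = e}

/-- The mass of the good groups of order `p ^ n` with `d` generators. -/
noncomputable def mass (p d n : ℕ) : ℝ :=
  (gb p (d * (d + 1) / 2) (n - d) : ℝ) / (Nat.card (GLp p d) : ℝ)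

end Pool.Agent.Lib.MP4ccb00
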