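import Pool.Agent.Lib.MP_4ccb00_al.L.Defs

/-!
# MP_4ccb00_al, library part: exact statements

Every module `NAME` proves `theorem specNAME (h.. : Spec..) : SpecNAME` in `L/NAME.lean`, own lemmas in
the namespace `Pool.Agent.Lib.MP4ccb00.NAMEM`. Any Spec may be used as a hypothesis (no circles: the
allowed ones are named in the docstrings).
-/

set_option autoImplicit false

namespace Pool.Agent.Lib.MP4ccb00

open Subgroup Module E

/-! ## Part 1: isomorphism classes and marked groups -/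

/-- `XFIN`: there are finitely many marked groups.

PROOF. A normal subgroup `R` of index `N > 0` is the kernel of the action of `FG d` on `FG d ⧸ R`,
which has `N` elements: choose a bijection with `Fin N`; so `R` is the kernel of one of the finitely
many homomorphisms `FG d →* Equiv.Perm (Fin N)` (a homomorphism is determined by the images of the `d`
generators). -/
def SpecXFIN : Prop := ∀ p d n : ℕ, p.Prime → (X p d n).Finite

/-- `ABP`: the projection `ab` and matrices.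

PROOF. (1) `ab` is onto (`ofAdd (Pi.single i 1)` generate), its target is commutative of exponent `p`, so
`Phi p ⊤ ≤ ker`. Conversely in `FG d ⧸ Phi p ⊤`, which is commutative of exponent `p`, the class of a word
only depends on the exponent sums mod `p` (it is `∏ x_i ^ (exponent sum)`); induction on words
(`FreeGroup.induction_on`) shows that the class of `x` is `∏ i, (class of x_i) ^ (ab x i).val`.
(2) Both sides are homomorphisms `FG d → Multiplicative (Fin d → ZMod p)`, compare on generators.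
(3) from (2). (4) `ab p (of j ^ k) = k • single j`, and the product of the list is the sum.
(5) index of the kernel of a surjective homomorphism = size of the target. -/
def SpecABP : Prop := ∀ (p d : ℕ), p.Prime →
  (ab p : FG d →* _).ker = Phi p (⊤ : Subgroup (FG d)) ∧
  Function.Surjective (ab p : FG d →* Multiplicative (Fin d → ZMod p)) ∧
  (∀ (y : Fin d → FG d) (w : FG d),
    Multiplicative.toAdd (ab p (hm y w)) = Matrix.vecMul (Multiplicative.toAdd (ab p w)) (mat p y)) ∧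
  (∀ (y z : Fin d → FG d), mat p (fun i => hm z (y i)) = mat p y * mat p z) ∧
  (∀ g : Matrix (Fin d) (Fin d) (ZMod p), mat p (can p g) = g) ∧
  (Phi p (⊤ : Subgroup (FG d))).index = p ^ d

/-- `EQV`: `Rel` is an equivalence relation on `X p d n`, `Good` is saturated, the matrices are
invertible.

PROOF. Reflexive: `y i = of i`, `hm y = id`. Transitive: if `R = comap (hm y) R'`, `R' = comap (hm z) R''`
then `R = comap (hm (hm z ∘ y)) R''` and the range condition: `range (hm z ∘ hm y) ⊔ R''` contains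
`hm z (R') ` (which lies in `R''`..) precisely: every `w ∈ FG d` is `hm z a * r''` with `r'' ∈ R''`, and
`a = hm y b * r'` with `r' ∈ R'`, `hm z r' ∈ R''`. Symmetric: `hm y` induces an isomorphism
`FG d ⧸ R → FG d ⧸ R'` (injective because `R = comap`, surjective because of the range condition); choose
`z i` with `hm y (z i) ∈ of i * R'` (possible), then `hm y (hm z w) ∈ w * R'` for all `w` (`R'` normal), so
`comap (hm z) R = comap (hm z) (comap (hm y) R') = R'`; range: for `w` put `w' = hm y w`; then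
`hm y (hm z w') ∈ w' R' = hm y w R'`, so `hm z w' ∈ w R`.
Good: `Psi` is mapped into `Psi` by `hm z` (`hm z` maps `Phi p ⊤` into `Phi p ⊤`), so if `R = comap (hm y) R'`
is good, take the `z` of the symmetric statement: `R' = comap (hm z) R ≥ comap (hm z) Psi ≥ Psi`.
Matrices: from `hm y (z i) ∈ of i * R'`, `R' ≤ Phi p ⊤ = ker ab` (`ABP`) we get `mat p z * mat p y = 1`. -/
def SpecEQV : Prop := ∀ p d n : ℕ, p.Prime →
  (∀ R : Subgroup (FG d), Rel R R) ∧
  (∀ R ∈ X p d n, ∀ R' ∈ X p d n, Rel R R' → Rel R' R) ∧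
  (∀ R R' R'' : Subgroup (FG d), Rel R R' → Rel R' R'' → Rel R R'') ∧
  (∀ R ∈ Good p d n, ∀ R' ∈ X p d n, Rel R R' → R' ∈ Good p d n) ∧
  (∀ R ∈ X p d n, ∀ R' ∈ X p d n, ∀ y : Fin d → FG d, R = R'.comap (hm y) → R' ⊔ (hm y).range = ⊤ →
    IsUnit (mat p y))

/-- `DEC`: decomposition of the number of groups.

PROOF. Send `R ∈ X p d n` to the class of the group structure transported to `Fin (p ^ n)` along a
bijection `FG d ⧸ R ≃ Fin (p ^ n)`. Well defined and injective on classes of `Rel` with fixed `d`: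
`Rel R R'` iff `FG d ⧸ R ≃* FG d ⧸ R'` (given an isomorphism choose `y i` in the class of the image of the
class of `of i`). Different `d` give non-isomorphic groups: `p ^ d` is the index of `Phi p ⊤` in
`FG d ⧸ R` (image of `Phi p ⊤` of `FG d`, which contains `R`; `ABP`). Onto: let `G` be a group of order
`p ^ n`, `p ^ d` the index of `Phi p ⊤` in it; `G / Phi` is an elementary abelian group of order `p ^ d`,
choose elements `t_1..t_d` whose classes generate it (a basis); they generate `G` because `Phi p ⊤` lies in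
the Frattini subgroup (maximal subgroups of a finite `p`-group are normal of index `p`, so they contain all
commutators and `p`-th powers; Mathlib: `IsPGroup`, `frattini_nongenerating`), `R` = kernel of
`FG d → G`. `R ≤ Phi p ⊤`: `FG d / Phi` and `G / Phi` both have order `p ^ d`, so the kernel of
`FG d → G / Phi G`, which contains `R` and `Phi p ⊤`, is `Phi p ⊤`. `d ≤ n` as `p ^ d` divides `p ^ n`. -/
def SpecDEC : Prop := ∀ (p n : ℕ), p.Prime →
  numGroups (p ^ n) = ∑ d ∈ Finset.range (n + 1), ncl (X p d n)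

/-- `CLS`: counting classes (uses `XFIN`, `EQV`).

PROOF. `Rel` is an equivalence relation on `X p d n`, so for `C ⊆ C' ⊆ X` the map
`Quot C → Quot C'` is injective; if `C' = C1 ∪ C2` the maps from `Quot C1`, `Quot C2` cover `Quot C'`; if `C`
is saturated in `C'` the images of `Quot C` and of `Quot (C' \ C)` are disjoint and cover. `Quot.mk` is
onto, so `ncl C ≤ ncard C`. Everything is finite by `XFIN`. -/
def SpecCLS : Prop := ∀ p d n : ℕ, p.Prime →
  (∀ C C' : Set (Subgroup (FG d)), C ⊆ C' → C' ⊆ X p d n → ncl C ≤ ncl C') ∧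
  (∀ C C' : Set (Subgroup (FG d)), C ⊆ C' → C' ⊆ X p d n →
    (∀ R ∈ C, ∀ R' ∈ C', Rel R R' → R' ∈ C) → ncl C' = ncl C + ncl (C' \ C)) ∧
  (∀ C1 C2 : Set (Subgroup (FG d)), C1 ∪ C2 ⊆ X p d n → ncl (C1 ∪ C2) ≤ ncl C1 + ncl C2) ∧
  (∀ C : Set (Subgroup (FG d)), C ⊆ X p d n → ncl C ≤ C.ncard) ∧
  (∀ (ι : Type) (s : Finset ι) (C : ι → Set (Subgroup (FG d))), (∀ i ∈ s, C i ⊆ X p d n) →
    ncl (⋃ i ∈ s, C i) ≤ ∑ i ∈ s, ncl (C i))

/-- `BUR`: the upper Burnside bound (uses `XFIN`, `EQV`, `ABP`).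

PROOF. It is enough to show `Nat.card GL ≤ ∑_{R ∈ K} #ImA R` for one class `K` of `Rel` contained in `C`.
Fix `R0 ∈ K`, `G = FG d ⧸ R0`, `|G| = p ^ n`. Let `T` be the set of tuples `t : Fin d → G` whose classes in
`G / Phi` form a basis, i.e. the matrix (defined via `G → (ZMod p) ^ d`, induced by `ab`, `R0 ≤ ker ab`) is
invertible: `|T| = |GL| * q` with `q = p ^ ((n - d) * d)` (each fibre of `G → (ZMod p) ^ d` has `p ^ (n-d)`
elements). For `t ∈ T` let `R_t` be the kernel of `FG d → G`, `of i ↦ t i`; `t` generates `G` (Frattini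
argument as in `DEC`), so with `y` a lift of `t`: `R_t = comap (hm y) R0`, `R0 ⊔ range = ⊤`: `R_t ∈ X p d n`,
`Rel R_t R0`, so `R_t ∈ K`. The fibre over `R1 ∈ K` of `t ↦ R_t` has at most `#ImA R1 * q` elements: fix
`t0` in the fibre with lift `y0`; for `t` in the fibre, `t = α ∘ t0` for an automorphism `α` of `G`; as `t0`
generates `G`, choose `a : Fin d → FG d` with `hm y0 (a i)` in the class `t i`; then
`hm y0 ∘ hm a` and `hm y` agree mod `R0`, so `comap (hm a) R1 = comap (hm a) (comap (hm y0) R0) = R_t = R1`,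
so `mat p a ∈ ImA R1` and `mat t = mat a * mat t0`; hence `mat t` takes at most `#ImA R1` values, and `q`
tuples have the same matrix. Summing: `|GL| q = |T| ≤ ∑_{R1 ∈ K} #ImA R1 * q`. -/
def SpecBUR : Prop := ∀ (p d n : ℕ), p.Prime → ∀ C : Set (Subgroup (FG d)), C ⊆ X p d n →
  (∀ R ∈ C, ∀ R' ∈ X p d n, Rel R R' → R' ∈ C) →
  ncl C * Nat.card (GLp p d) ≤ Set.ncard {x : Subgroup (FG d) × GLp p d | x.1 ∈ C ∧ x.2 ∈ ImA p x.1}

/-- `LOW`: the lower Burnside bound (uses `XFIN`, `EQV`, `ABP`).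

PROOF. A class `K` of `Rel` in `Good p d n` has at most `|GL|` elements: fix `R0 ∈ K`. For `R ∈ K` choose `y`
with `R = comap (hm y) R0`, `mat p y ∈ GL` (`EQV`). If `R, R'` have tuples `y, y'` with the same matrix then
`y i ∈ y' i * Phi p ⊤` (`ABP`: `ker ab = Phi p ⊤`), and for `w ∈ Phi p ⊤` one has
`hm y w ∈ hm y' w * Psi`: in the quotient `FG d ⧸ Psi` the elements of `Phi p ⊤` are central of order
dividing `p`; the two homomorphisms `FG d → FG d ⧸ Psi` differ by the homomorphism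
`w ↦ hm y' w⁻¹ * hm y w` into the central subgroup `Phi / Psi` of exponent `p`, which kills `Phi p ⊤`.
As `Psi ≤ R0` we get `w ∈ comap (hm y) R0` iff `w ∈ comap (hm y') R0` for `w ∈ Phi p ⊤`, and
`R, R' ≤ Phi p ⊤`; so `R = R'`. -/
def SpecLOW : Prop := ∀ (p d n : ℕ), p.Prime →
  (Good p d n).ncard ≤ ncl (Good p d n) * Nat.card (GLp p d)

/-! ## Part 2: good groups and subspaces -/

/-- The space `Hom_F (Phi p ⊤, ZMod p)`, functions extended by zero. -/
noncomputable abbrev Ms (p d : ℕ) : Submodule (ZMod p) (FG d → ZMod p) :=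
  YY p (⊤ : Subgroup (FG d)) (Phi p ⊤) ⊥

open Classical in
/-- Pull back of functions on `Phi p ⊤` under `hm y`. -/
noncomputable def pull (p : ℕ) {d : ℕ} (y : Fin d → FG d) :
    (FG d → ZMod p) →ₗ[ZMod p] (FG d → ZMod p) where
  toFun φ := fun x => if x ∈ Phi p (⊤ : Subgroup (FG d)) then φ (hm y x) else 0
  map_add' φ ψ := by
    funext x
    by_cases h : x ∈ Phi p (⊤ : Subgroup (FG d)) <;> simp [h]
  map_smul' c φ := by
    funext x
    by_cases h : x ∈ Phi p (⊤ : Subgroup (FG d)) <;> simp [h]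

/-- `DMS`: the dimension of `Ms` (uses `ABP`).

PROOF. `≤`: `φ ∈ Ms` is determined by the `d (d+1) / 2` values `φ (x_i ^ p)` and `φ ([x_i, x_j])`, `i < j`:
if they all vanish, let `N = {r ∈ Phi | φ r = 0}`, a normal subgroup of `FG d`; in `FG d ⧸ N` the generators
commute and have order dividing `p`, so it is commutative of exponent `p`, and `Phi ≤ N`.
`≥`: (i) for `l : Fin d → ZMod p` the function `φ (w) = ∑ l_i (s_i (w) / p)` on `Phi p ⊤` where `s_i` is the
exponent sum mod `p ^ 2` (divisible by `p` on `Phi p ⊤`), it is invariant, kills commutators and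
`φ (x_i ^ p) = l_i`. (ii) for a matrix `c_{ij}`, `i < j`: let `E` be the group of pairs
`(v, z) ∈ (ZMod p) ^ d × ZMod p` with `(v,z)(v',z') = (v + v', z + z' + ∑_{i<j} c_{ij} v_i v'_j)`, and
`θ : FG d → E` with `x_i ↦ (e_i, 0)`; for `w ∈ Phi p ⊤`, `θ w = (0, φ w)`, `φ` is an invariant homomorphism
(`{(0,z)}` is central), `φ ([x_i, x_j]) = c_{ij}` for `i < j` and `φ (x_i ^ p) = 0`. So all values of the
`d (d+1)/2` coordinates occur. -/
def SpecDMS : Prop := ∀ (p d : ℕ), p.Prime →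
  Module.Finite (ZMod p) (Ms p d) ∧ finrank (ZMod p) (Ms p d) = d * (d + 1) / 2

/-- `PUL`: the pull back (uses `ABP`).

PROOF. (1) `hm y` maps `Phi p ⊤` into `Phi p ⊤`, and `φ ∘ hm y` is additive and invariant on `Phi p ⊤`.
(2) As in `LOW`: `hm y w ∈ hm y' w * Psi` for `w ∈ Phi p ⊤`, and `φ` kills `Psi`.
(3) `pull y (pull z φ)` at `x ∈ Phi p ⊤` is `φ (hm z (hm y x)) = φ (hm (hm z ∘ y) x)`. -/
def SpecPUL : Prop := ∀ (p d : ℕ), p.Prime →
  (∀ (y : Fin d → FG d), ∀ φ ∈ Ms p d, pull p y φ ∈ Ms p d) ∧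
  (∀ (y y' : Fin d → FG d), mat p y = mat p y' → ∀ φ ∈ Ms p d, pull p y φ = pull p y' φ) ∧
  (∀ (y z : Fin d → FG d), ∀ φ ∈ Ms p d, pull p y (pull p z φ) = pull p (fun i => hm z (y i)) φ) ∧
  (∀ φ ∈ Ms p d, pull p (fun i : Fin d => FreeGroup.of i) φ = φ)

/-- `GOO`: good groups are subspaces (uses `ABP`, `DMS`, `PUL`).

PROOF. `Phi / Psi` is a central elementary abelian subgroup of `FG d ⧸ Psi`; for `R ∈ Good`, `Phi / R` is
elementary abelian of order `p ^ n / p ^ d` (`ABP`), and `YY p ⊤ Phi R` is its dual: dimension `n - d`; `R` is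
the intersection of the kernels of its elements in `Phi` (duality for the finite elementary abelian group
`Phi / R`: an element outside `R` is detected by a homomorphism to `ZMod p`, automatically invariant
since `Phi / R` is central). Given `W ≤ Ms` of dimension `n - d` put
`R = {r ∈ Phi | ∀ φ ∈ W, φ r = 0}`: normal (invariance), contains `Psi`, `Phi / R` embeds in the dual of `W`
and its dual contains `W`, so `|Phi / R| = p ^ (n - d)` and `YY p ⊤ Phi R = W`; the index of `R` is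
`p ^ d p ^ (n - d)`. Last statement: `g ∈ ImA R` with tuple `y`: for `φ ∈ W = YY p ⊤ Phi R` and `r ∈ R`,
`pull y φ r = φ (hm y r) = 0`, and `pull (can g) φ = pull y φ` by `PUL`, `ABP`. Conversely if `W` is
invariant under `pull (can g)` then `hm (can g) r` is killed by all `φ ∈ W` and lies in `Phi`, so in `R`. -/
def SpecGOO : Prop := ∀ (p d n : ℕ), p.Prime → d ≤ n →
  (∀ R ∈ Good p d n, finrank (ZMod p) (YY p ⊤ (Phi p ⊤) R) = n - d) ∧
  (∀ R ∈ Good p d n, ∀ R' ∈ Good p d n, YY p ⊤ (Phi p ⊤) R = YY p ⊤ (Phi p ⊤) R' → R = R') ∧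
  (∀ W : Submodule (ZMod p) (FG d → ZMod p), W ≤ Ms p d → finrank (ZMod p) W = n - d →
    ∃ R ∈ Good p d n, YY p ⊤ (Phi p ⊤) R = W) ∧
  (∀ R ∈ Good p d n, ∀ g : GLp p d, g ∈ ImA p R ↔
    (YY p ⊤ (Phi p ⊤) R).map (pull p (can p (g : Matrix (Fin d) (Fin d) (ZMod p)))) ≤
      YY p ⊤ (Phi p ⊤) R)

/-- `SUP`: the good quotient of a marked group.

PROOF. `R ⊔ Psi` is normal, contained in `Phi p ⊤`, its index divides `p ^ n`, and `p ^ d = index of Phi`
divides it. If `R ≤ comap (hm y) R` then also `Psi ≤ comap (hm y) Psi`. -/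
def SpecSUP : Prop := ∀ (p d n : ℕ), p.Prime → ∀ R ∈ X p d n,
  (∃ k : ℕ, k ≤ n - d ∧ R ⊔ Psi p (FG d) ∈ Good p d (n - k) ∧
    R.relIndex (R ⊔ Psi p (FG d)) = p ^ k) ∧
  ImA p R ⊆ ImA p (R ⊔ Psi p (FG d))

/-- `CNT`: the number of good marked groups (uses `GOO`, `DMS`, `XFIN`).

PROOF. `Good p d n` is in bijection with the subspaces of dimension `n - d` of `Ms p d`, which is a vector
space of dimension `d (d+1)/2`, hence isomorphic to `Fin m → ZMod p`. -/
def SpecCNT : Prop := ∀ (p d n : ℕ), p.Prime → d ≤ n →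
  (Good p d n).ncard = gb p (d * (d + 1) / 2) (n - d)

/-! ## Part 3: Gaussian binomial coefficients and the main term -/

/-- `GBF`: formula for the Gaussian binomial coefficients.

PROOF. Count the linearly independent `e`-tuples of `(ZMod p) ^ m` (Mathlib: `card_linearIndependent`)
by their span: `∏_{i<e} (p^m - p^i) = gb * ∏_{i<e} (p^e - p^i)`, and divide by `∏_{i<e} p ^ i`. The second
statement: a subspace of dimension `e > m` does not exist. Third: any space of dimension `m`. -/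
def SpecGBF : Prop := ∀ (p m e : ℕ), p.Prime →
  (e ≤ m → gb p m e * ∏ i ∈ Finset.range e, (p ^ (i + 1) - 1) =
    ∏ i ∈ Finset.range e, (p ^ (m - i) - 1)) ∧
  (m < e → gb p m e = 0) ∧
  (∀ (V : Type) [AddCommGroup V] [Module (ZMod p) V] [Module.Finite (ZMod p) V],
    finrank (ZMod p) V = m →
    Nat.card {W : Submodule (ZMod p) V // finrank (ZMod p) W = e} = gb p m e)

/-- `GBB`: bounds (uses `GBF`).

PROOF. With `m - i ≥ e - i`: in `∏_{i<e} (p^(m-i) - 1) / ∏_{i<e} (p^(i+1) - 1)`, reindex the denominator as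
`∏_{i<e} (p^(e-i) - 1)`; each quotient `(p^(m-i) - 1) / (p^(e-i) - 1)` is between `p^(m-e)` and
`p^(m-e) / (1 - p^(-(e-i)))`, and `∏_{j ≥ 1} (1 - p^(-j)) ≥ ∏_{j≥1} (1 - 2^(-j)) > 1/4`
(prove `∏_{j=1}^{e} (1 - 2^(-j)) ≥ 1/4 + 2^(-e-2)...` by induction: for `e ≥ 1` the product is
`≥ 1/4 + 1/4 * 2^(-(e-1))`: at `e = 1`: `1/2 = 1/4 + 1/4`; step:
`(1/4 + 2^(-e-1)) (1 - 2^(-e-1)) ≥ 1/4 + 2^(-e-2)` iff `2^(-e-2) - 2^(-e-3) ≥ 2^(-2e-2)`, i.e.
`2^(-e-3) ≥ 2^(-2e-2)`, true for `e ≥ 1`). -/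
def SpecGBB : Prop := ∀ (p m e : ℕ), p.Prime → e ≤ m →
  p ^ (e * (m - e)) ≤ gb p m e ∧ gb p m e ≤ 4 * p ^ (e * (m - e))

/-- `GLB`: the order of `GL_d` (Mathlib: `Matrix.card_GL_field`).

PROOF. `∏_{i<d} (p^d - p^i) = p^(d^2) ∏_{j=1}^{d} (1 - p^(-j))`, and the product is between `1/4` and `1`
(see `GBB`). -/
def SpecGLB : Prop := ∀ (p d : ℕ), p.Prime →
  Nat.card (GLp p d) ≤ p ^ (d * d) ∧ p ^ (d * d) ≤ 4 * Nat.card (GLp p d)

/-- `MLB`: size of the mass (uses `GBB`, `GLB`). -/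
def SpecMLB : Prop := ∀ (p d n : ℕ), p.Prime → d ≤ n → n - d ≤ d * (d + 1) / 2 →
  (p : ℝ) ^ ((n - d) * (d * (d + 1) / 2 - (n - d))) ≤ mass p d n * (p : ℝ) ^ (d * d) ∧
  mass p d n * (p : ℝ) ^ (d * d) ≤ 16 * (p : ℝ) ^ ((n - d) * (d * (d + 1) / 2 - (n - d)))

/-- The range of `d` which carries almost all groups: `|3 d - 2 n| ≤ n / 100`. -/
def near (n : ℕ) : Finset ℕ :=
  (Finset.range (n + 1)).filter (fun d => 300 * d ≤ 201 * n ∧ 199 * n ≤ 300 * d)

/-- `MON`: monotonicity of the mass (uses `GBF`; Mathlib: `Matrix.card_GL_field`).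

PROOF. Write `m = d (d+1)/2`, `e = n - d`, `a = m - e` (positive for large `n`). For `x ≥ y ≥ 2`:
`(x^k - 1)/(y^k - 1) ≥ (x/y)^k`, and `(x^k - 1)/(y^k - 1) ≤ (x-1)/(y-1) * (x/y)^(k-1) ≤ (x/y)^(k+1)`
(`x^k - 1 = (x-1)(1 + x + .. + x^(k-1))`; `(x-1)/(y-1) ≤ (x/y)^2` because
`x^2 (y-1) - y^2 (x-1) = (x-y)(x y - x - y) ≥ 0` for `x ≥ y ≥ 2`).
By `GBF`, `gb p m e = ∏_{i=1}^{e} (p^(a+i) - 1)/(p^i - 1)`, so the quotient of the values at `q > p` is at
least `∏ (q/p)^(a+i-(i+1)) = (q/p)^(e(a-1))`. `|GL_d| = ∏_{i<d} p^i (p^(d-i) - 1)`: the quotient is at most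
`∏ (q/p)^(i + d - i + 1) = (q/p)^(d(d+1))`. So `mass q ≥ (q/p)^(e(a-1) - d(d+1)) mass p`, and for
`d ∈ near n`: `e ≥ 99 n/300`, `m ≥ (199/300)^2 n^2/2 ≥ 0.22 n^2`, so `e (a-1) - d(d+1) ≥ n^3/20` for
large `n` (`0.33 * 0.22 = 0.0726`). -/
def SpecMON : Prop := ∃ n0 : ℕ, ∀ n ≥ n0, ∀ p q : ℕ, p.Prime → q.Prime → p < q → ∀ d ∈ near n,
  ((q : ℝ) / p) ^ (n ^ 3 / 20) * mass p d n ≤ mass q d n

/-- `MAX`: the largest mass (uses `MLB`).

PROOF. Take `d = (2 n - r)/3` with `r ∈ {0,1,2}` and `3 | 2 n - r`; `e = n - d = (n + r)/3`, `m = d(d+1)/2`.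
`e (m - e) - d^2 ≥ e d^2 / 2 - e^2 - d^2 = 2 n^3/27 - (3 n r^2 - r^3)/54 - e^2 - d^2`, and
`e^2 + d^2 ≤ 5 n^2/9 + O(n)`; so it is at least `2 n^3/27 - n^2` for large `n`. -/
def SpecMAX : Prop := ∃ n0 : ℕ, ∀ n ≥ n0, ∀ p : ℕ, p.Prime → ∃ d ∈ near n,
  (p : ℝ) ^ (2 * n ^ 3 / 27) ≤ (p : ℝ) ^ (n ^ 2) * mass p d n

/-- The upper estimate of the number of groups of order `p ^ n` by the masses of the good groups in the
main range (this is what the asymptotic theorem provides). -/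
def MainUpper : Prop := ∃ n0 : ℕ, ∀ n ≥ n0, ∀ p : ℕ, p.Prime →
  (numGroups (p ^ n) : ℝ) ≤ (1 + 1 / (p : ℝ) ^ 2) * ∑ d ∈ near n, mass p d n

/-- `LBD`: the lower bound (uses `DEC`, `CLS`, `LOW`, `CNT`).

PROOF. `numGroups (p^n) = ∑_{d ≤ n} ncl (X p d n) ≥ ∑_{d ≤ n} ncl (Good p d n)` and
`ncl (Good p d n) ≥ |Good p d n| / |GL_d| = mass p d n`. -/
def SpecLBD : Prop := ∀ (p n : ℕ), p.Prime →
  ∑ d ∈ Finset.range (n + 1), mass p d n ≤ (numGroups (p ^ n) : ℝ)

/-- `END`: the final deduction (uses `MON`, `LBD`, `GBB`, `GLB`).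

PROOF. Let `n` be large, `p < q`. `numGroups (q^n) ≥ ∑_{near} mass q d n ≥ (q/p)^(n^3/20) S` with
`S = ∑_{near} mass p d n > 0` (`near n` is nonempty for `n ≥ 300`, masses are positive since
`n - d ≤ d (d+1)/2` there). `(q/p)^k ≥ (1 + 1/p)^k ≥ 1 + k/p > 1 + 1/p^2` for `k = n^3/20 ≥ 1`. And
`numGroups (p^n) ≤ (1 + 1/p^2) S < (1 + k/p) S ≤ numGroups (q^n)`. -/
def SpecEND : Prop := MainUpper →
  ∃ n0 : ℕ, ∀ n ≥ n0, ∀ p q : ℕ, p.Prime → q.Prime → p < q → numGroups (p ^ n) < numGroups (q ^ n)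

/-! ## Part 4: fixed subspaces, part (f) of the proof -/

/-- `IVS`: the number of invariant subspaces of a linear map all of whose `T - a` have rank at least `r`
(uses `GBB`, `GBF`, `IND`).

PROOF. `A1` = the invariant `W` of dimension `e` such that `rank ((T - a)|W) ≥ 5` for all `a`. By `IND` with
`k = 3`, applied to `T|W`, there are `v_1, v_2, v_3 ∈ W` with `v_i, T v_i` linearly independent; extend
`v_1, v_2, v_3` to a basis of a complement `S` of `span (T v_i)` in `W`, `dim S = e - 3`. `W` is the smallest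
`T`-invariant subspace containing `S`, so it is determined by an `(e-3)`-tuple of vectors of `V`: at most
`(p^m)^(e-3)` such `W`.
`A2` = the others: for some `a` the space `W ∩ ker (T - a)` has dimension at least `e - 4 ≥ 2`; choose a
subspace `W1` of dimension `e - 4` of it. Number of `a` with `ker (T - a) ≠ 0`: at most `m` (eigenvalues).
`W1` is a subspace of `ker (T - a)`, which has dimension at most `m - r`: at most `4 p^((e-4)(m-r-(e-4)))`
(`GBB`; none if `e - 4 > m - r`). `W` is a subspace of dimension `e` containing `W1`, i.e. a 4-dimensional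
subspace of a space of dimension `m - e + 4`: at most `4 p^(4 (m-e))`. Total exponent:
`(e-4)(m-r-e+4) + 4(m-e) = e(m-e) - (e-4)(r-4)`. -/
def SpecIVS : Prop := ∀ (p m e r : ℕ), p.Prime → 6 ≤ e → e ≤ m → 4 ≤ r →
  ∀ (V : Type) [AddCommGroup V] [Module (ZMod p) V] [Module.Finite (ZMod p) V],
  finrank (ZMod p) V = m → ∀ T : V →ₗ[ZMod p] V,
  (∀ a : ZMod p, r ≤ finrank (ZMod p) (LinearMap.range (T - a • LinearMap.id))) →
  ∃ c1 c2 : ℕ, Nat.card {W : Submodule (ZMod p) V // finrank (ZMod p) W = e ∧ W.map T ≤ W} ≤ c1 + c2 ∧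
    c1 ≤ p ^ (m * (e - 3)) ∧ c2 * p ^ ((e - 4) * (r - 4)) ≤ 16 * m * p ^ (e * (m - e))

/-- `IND`: vectors `v_1..v_k` such that `v_i, g v_i` are independent.

PROOF. Induction on `j ≤ k`: suppose `v_1..v_j` (`j < k`) with `v_i, g v_i` linearly independent, span `T` of
dimension `2 j ≤ 2 k - 2`, so `dim V / T ≥ 2`. Suppose that for every `v` the vectors `v, g v` are dependent
modulo `T`. For `v ∉ T` then `g v ∈ c_v v + T`. For `v ∈ T` we get `g v ∈ T`: for every `u ∉ T` also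
`u + v ∉ T`, so `g v = g (u + v) - g u ∈ (c_{u+v} - c_u) u + T`; take two `u` independent modulo `T`. So `g`
induces an endomorphism of `V / T` for which all vectors are eigenvectors, a scalar `a`
(Mathlib: `LinearMap.exists_eq_smul_id_of_forall_notLinearIndependent` or by hand), so
`(g - a) V ⊆ T` and `rank (g - a) ≤ 2 j ≤ 2 k - 2`, a contradiction. So some `v` works: `v, g v` independent
modulo `T`; put `v_{j+1} = v`. -/
def SpecIND : Prop := ∀ (p k : ℕ), p.Prime →
  ∀ (V : Type) [AddCommGroup V] [Module (ZMod p) V] [Module.Finite (ZMod p) V],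
  2 * k ≤ finrank (ZMod p) V → ∀ g : V →ₗ[ZMod p] V,
  (∀ a : ZMod p, 2 * k - 1 ≤ finrank (ZMod p) (LinearMap.range (g - a • LinearMap.id))) →
  ∃ v : Fin k → V, LinearIndependent (ZMod p) (Sum.elim v (fun i => g (v i)))

/-- `ALT`: rank on alternating forms.

`Alt2 p d` is the space of alternating bilinear forms on `(ZMod p) ^ d`, written as matrices with
`B i i = 0`, `B i j = - B j i`; `g` acts by `B ↦ g B gᵀ`.

PROOF (uses `IND` for `gᵀ`). Let `v_1..v_k` be as in `IND` for `gᵀ`. For a form `B` put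
`L B = g B gᵀ - b B`. The rank of `L` on alternating matrices is at least `k (d - 2 k)`: dually, the
functionals `B ↦ v_iᵀ (L B) w = (gᵀ v_i)ᵀ B (gᵀ w) - b v_iᵀ B w`, `w ∈ V`, span a space of functionals on
alternating matrices of dimension at least `k (d - 2 k)`. Indeed let `T = span (v_i, gᵀ v_i)`, `U` a
complement of `T`; functionals `B ↦ xᵀ B u` with `x` in the basis of `T`, `u` in a basis of `U` are
independent (part of the coordinates in a basis of `V`). Restrict to the forms `B` which vanish on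
`T × T` and on `U × U` (`B` is then a pairing of `T` with `U`, arbitrary): for `w` with `gᵀ w = t + u`,
`w = t' + u'` the functional becomes `(gᵀ v_i)ᵀ B u - b v_iᵀ B u'`. Let `w` run through a
complement of `(gᵀ)⁻¹ T`, so that `u` runs through a basis of `U` (`gᵀ` invertible). The functionals for
`i = 1..k` and these `d - 2k` values of `w` are independent, because their components on the coordinates
`(gᵀ v_i, ·)` are. -/
def Alt2 (p d : ℕ) : Submodule (ZMod p) (Matrix (Fin d) (Fin d) (ZMod p)) where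
  carrier := {B | (∀ i, B i i = 0) ∧ ∀ i j, B i j = - B j i}
  add_mem' := by
    rintro a b ⟨ha, ha'⟩ ⟨hb, hb'⟩
    refine ⟨fun i => by simp [ha i, hb i], fun i j => ?_⟩
    simp only [Matrix.add_apply, ha' i j, hb' i j]
    ring
  zero_mem' := ⟨fun i => rfl, fun i j => by simp⟩
  smul_mem' := by
    rintro c a ⟨ha, ha'⟩
    refine ⟨fun i => by simp [ha i], fun i j => ?_⟩
    simp only [Matrix.smul_apply, ha' i j, smul_eq_mul]
    ring

/-- See `Alt2`. -/
def SpecALT : Prop := ∀ (p d k : ℕ), p.Prime → 2 * k ≤ d →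
  ∀ g : GLp p d,
  (∀ a : ZMod p, 2 * k - 1 ≤
    ((g : Matrix (Fin d) (Fin d) (ZMod p)) - Matrix.scalar (Fin d) a).rank) →
  ∀ b : ZMod p, ∃ s : Submodule (ZMod p) (Matrix (Fin d) (Fin d) (ZMod p)),
    k * (d - 2 * k) ≤ finrank (ZMod p) s ∧
    s = (Alt2 p d).map (LinearMap.mulLeft (ZMod p) (g : Matrix (Fin d) (Fin d) (ZMod p)) ∘ₗ
        LinearMap.mulRight (ZMod p) (g : Matrix (Fin d) (Fin d) (ZMod p)).transpose -
      b • LinearMap.id)

/-- `RKM`: ranks on `Ms` (uses `ALT`, `DMS`, `PUL`, `ABP`).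

PROOF. For `φ ∈ Ms` let `β φ` be the matrix `(φ [x_i, x_j])_{i,j}`: it lies in `Alt2` and
`β : Ms → Alt2` is onto (proof of `DMS`). `φ ([v,w])` for words `v, w` is `ab(v) B ab(w)ᵀ` with `B = β φ`
(bilinearity of commutators mod `Psi`), so `β (pull (can g) φ) = g B gᵀ` (rows of `g` are the vectors of
`can g i`). So the rank of `pull (can g) - b` on `Ms` is at least the rank of `B ↦ g B gᵀ - b B` on
`Alt2`. (1) if `g` is not scalar, use `ALT` with `k = 1`: at least `d - 2`. If `g = λ 1`, `λ ≠ 1`: on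
`Alt2` the map is `λ^2 - b`; on the subspace `V* = {φ | φ kills commutators}` of `Ms`, of dimension `d`,
`pull (can g) φ (x_i ^ p) = φ ((x_i ^ λ) ^ p) = λ φ (x_i ^ p)`, so it is `λ - b`. Not both are zero as
`λ ≠ λ^2`; the rank is at least `min (d, d (d-1)/2)` or (for `d ≤ 2`) the claim is trivial.
(2) `ALT` with `k = 3`. -/
def SpecRKM : Prop := ∀ (p d : ℕ), p.Prime → ∀ g : GLp p d, g ≠ 1 →
  (∀ b : ZMod p, d - 2 ≤ finrank (ZMod p) ((Ms p d).map
    (pull p (can p (g : Matrix (Fin d) (Fin d) (ZMod p))) - b • LinearMap.id))) ∧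
  ((∀ a : ZMod p, 5 ≤ ((g : Matrix (Fin d) (Fin d) (ZMod p)) - Matrix.scalar (Fin d) a).rank) →
    6 ≤ d → ∀ b : ZMod p, 3 * (d - 6) ≤ finrank (ZMod p) ((Ms p d).map
    (pull p (can p (g : Matrix (Fin d) (Fin d) (ZMod p))) - b • LinearMap.id)))

/-- `SML`: few matrices have small rank after subtracting a scalar.

PROOF. A matrix of rank at most `4` is a product `A B` with `A` of size `d × 4` and `B` of size `4 × d`: at
most `p^(8 d)` of them; `g` is such a matrix plus one of `p` scalars. -/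
def SpecSML : Prop := ∀ (p d : ℕ), p.Prime →
  Nat.card {g : GLp p d // ∃ a : ZMod p,
    ((g : Matrix (Fin d) (Fin d) (ZMod p)) - Matrix.scalar (Fin d) a).rank ≤ 4} ≤ p ^ (8 * d + 1)

/-- `FIX`: the invariant subspaces of all `g ≠ 1` together (uses `IVS`, `RKM`, `SML`, `GLB`, `DMS`, `PUL`).

PROOF. `m = d (d+1)/2`. Put `T_g = pull (can g)` on `Ms`. `IVS` with `r = d - 2` resp. `r = 3 (d - 6)`.
Sum of the `c1`: at most `p^(d^2 + m (e-3))`; `e (m - e) - d^2 - m (e - 3) = 3 m - e^2 - d^2 ≥`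
`d^2/2 - e^2 ≥ (0.2199 - 0.1134) n^2 ≥ n^2/20 + 2` with `d ≥ 199 n/300`, `e ≤ 101 n/300`, `n` large.
Sum of the `c2` over the `g` with `rank (g - a) ≥ 5` for all `a`: at most
`p^(d^2) 16 m p^(e (m-e) - (e-4)(3 d - 22))`, and `(e-4)(3d - 22) - d^2 ≥ (0.33 * 1.99 - 0.4490) n^2 - O(n)
≥ 0.2 n^2 - O(n)`. Sum of the `c2` over the other `g ≠ 1`: at most
`p^(8 d + 1) 16 m p^(e (m-e) - (e-4)(d-6))`, `(e-4)(d-6) ≥ 0.21 n^2 - O(n)`. All three are at most
`p^(e(m-e) - n^2/20 - 2)` for large `n` (`16 m ≤ 2^n ≤ p^n`), and `3 ≤ p^2`. -/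
def SpecFIX : Prop := ∃ n0 : ℕ, ∀ n ≥ n0, ∀ p : ℕ, p.Prime → ∀ d e : ℕ,
  300 * d ≤ 201 * n → 199 * n ≤ 300 * d → 300 * e ≤ 101 * n → 98 * n ≤ 300 * e →
  Nat.card {x : GLp p d × Submodule (ZMod p) (FG d → ZMod p) // x.1 ≠ 1 ∧ x.2 ≤ Ms p d ∧
    finrank (ZMod p) x.2 = e ∧
    x.2.map (pull p (can p (x.1 : Matrix (Fin d) (Fin d) (ZMod p)))) ≤ x.2} * p ^ (n ^ 2 / 20) ≤
  p ^ (e * (d * (d + 1) / 2 - e))

end Pool.Agent.Lib.MP4ccb00
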